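import Pool.Agent.T2H13.A7.Fin6
import Pool.Agent.W38.TC.Lower

/-!
# Turán's `(3,4)`-problem: 3-graphs without an induced cone over `K_5` minus an edge

`cone` is the 3-graph on the vertices `0, ..., 5` whose edges are the nine triples `0xy` with `xy` an
edge of `K_5^-`, the complete graph on `1, ..., 5` without the edge `45`. For every `K_4^3`-free
3-graph `H` on `n` vertices with `N` induced copies of `cone` we prove
`54 n³ |H| ≤ 5 n⁶ + 17280 N + 360 n⁵`. So Turán's conjecture (density at most `5/9`) holds for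
`K_4^3`-free 3-graphs without induced copies of the single 3-graph `cone`, and with few induced
copies; Turán's construction has no induced copy of `cone`. The cone over the diamond `K_4^-` is an
induced subgraph of `cone`.

Outline: a sum of squares certificate for seven-vertex structures: 5-vertex, 3-vertex, 4-vertex and
2-vertex types. The number of structures on seven vertices is 1295793; the certificate is exact on the
seven-vertex subgraphs of Turán's construction and has a positive slack on all others (with a penalty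
for copies of `cone`). It is checked by the kernel with long integers which hold many leaf sums.
-/

set_option autoImplicit false
set_option maxRecDepth 100000
open Finset
open scoped Classical

namespace Pool.Agent.Results.MP_f1799f_co.ConeOverK5Minus

/-- The 3-graph `H` has no four vertices spanning all four triples. -/
def K43Free {n : ℕ} (H : Finset (Finset (Fin n))) : Prop :=
  ∀ S : Finset (Fin n), S.card = 4 → ∃ s ⊆ S, s.card = 3 ∧ s ∉ H

/-- The set `S` of vertices induces a copy of the 3-graph `F` in `H`: there is a bijection from the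
vertices of `F` to `S` that maps edges to edges and non-edges to non-edges. -/
def Induces {k n : ℕ} (F : Finset (Finset (Fin k))) (H : Finset (Finset (Fin n)))
    (S : Finset (Fin n)) : Prop :=
  ∃ f : Fin k → Fin n, Function.Injective f ∧ univ.image f = S ∧
    ∀ t : Finset (Fin k), t.card = 3 → (t.image f ∈ H ↔ t ∈ F)

/-- The number of sets of vertices which induce a copy of `F` in `H`. -/
noncomputable def copies {k n : ℕ} (F : Finset (Finset (Fin k))) (H : Finset (Finset (Fin n))) : ℕ :=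
  ((univ : Finset (Finset (Fin n))).filter fun S => Induces F H S).card

/-- The cone with apex `0` over the graph `K_5` on `1, ..., 5` minus the edge `45`. -/
def cone : Finset (Finset (Fin 6)) :=
  {{0, 1, 2}, {0, 1, 3}, {0, 2, 3}, {0, 1, 4}, {0, 2, 4}, {0, 3, 4}, {0, 1, 5}, {0, 2, 5}, {0, 3, 5}}

theorem img {k n : ℕ} (f : Fin k → Fin n) (t : Finset (Fin k)) :
    @Finset.image _ _ (fun a b => Classical.propDecidable (a = b)) f t =
      @Finset.image _ _ (instDecidableEqFin n) f t := by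
  ext v
  simp only [mem_image]

theorem ind_iff {n : ℕ} (F : Finset (Finset (Fin 6))) (H : Finset (Finset (Fin n)))
    (S : Finset (Fin n)) : Pool.Agent.H37R3.Cop.Induces F H S ↔ Induces F H S := by
  unfold Pool.Agent.H37R3.Cop.Induces Induces
  simp only [img]

theorem copies_six {n : ℕ} (F : Finset (Finset (Fin 6))) (H : Finset (Finset (Fin n))) :
    (((univ : Finset (Fin n)).powersetCard 6).filter fun S =>
      Pool.Agent.H37R3.Cop.Induces F H S).card = copies F H := by
  unfold copies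
  congr 1
  ext S
  rw [mem_filter, mem_filter, mem_powersetCard, ind_iff]
  constructor
  · rintro ⟨-, h⟩
    exact ⟨mem_univ _, h⟩
  · rintro ⟨-, h⟩
    refine ⟨⟨subset_univ _, ?_⟩, h⟩
    obtain ⟨f, hf, hS, -⟩ := h
    rw [← hS, card_image_of_injective _ hf]; rfl

theorem main (n : ℕ) (H : Finset (Finset (Fin n))) (h3 : ∀ e ∈ H, e.card = 3) (hK : K43Free H) :
    54 * n ^ 3 * H.card ≤ 5 * n ^ 6 + 17280 * copies cone H + 360 * n ^ 5 := by
  have h := Pool.Agent.T2H13.A7.main (V := Fin n) h3 hK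
  have e : Pool.Agent.T2H13.A7.FA = cone := rfl
  rw [Fintype.card_fin, e, copies_six] at h
  linarith

theorem of_free (n : ℕ) (H : Finset (Finset (Fin n))) (h3 : ∀ e ∈ H, e.card = 3) (hK : K43Free H)
    (hX : ∀ S, ¬ Induces cone H S) : 54 * H.card ≤ 5 * n ^ 3 + 360 * n ^ 2 := by
  rcases Nat.eq_zero_or_pos n with rfl | hn
  · have : H = ∅ := by
      rw [eq_empty_iff_forall_notMem]
      intro e he
      have h1 := h3 e he
      have h2 := card_le_univ e
      rw [Fintype.card_fin, h1] at h2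
      omega
    simp [this]
  · have h := main n H h3 hK
    have h0 : copies cone H = 0 := by
      unfold copies
      rw [card_eq_zero, filter_eq_empty_iff]
      exact fun S _ => hX S
    rw [h0] at h
    have hn3 : 0 < n ^ 3 := by positivity
    refine Nat.le_of_mul_le_mul_left ?_ hn3
    calc n ^ 3 * (54 * H.card) = 54 * n ^ 3 * H.card := by ring
      _ ≤ 5 * n ^ 6 + 17280 * 0 + 360 * n ^ 5 := h
      _ = n ^ 3 * (5 * n ^ 3 + 360 * n ^ 2) := by ring

theorem choose3 {n : ℕ} (hn : 3 ≤ n) : ((n.choose 3 : ℕ) : ℝ) = (n : ℝ) * (n - 1) * (n - 2) / 6 := by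
  have h1 : n.choose 3 * 6 = n * (n - 1) * (n - 2) := by
    have := Nat.descFactorial_eq_factorial_mul_choose n 3
    have h2 : n.descFactorial 3 = (n - 2) * ((n - 1) * n) := by
      simp [Nat.descFactorial]
    rw [h2] at this
    have h3 : Nat.factorial 3 = 6 := rfl
    rw [h3] at this
    linarith
  have h4 : ((n.choose 3 * 6 : ℕ) : ℝ) = ((n * (n - 1) * (n - 2) : ℕ) : ℝ) := by rw [h1]
  push_cast [Nat.cast_sub (show 1 ≤ n by omega), Nat.cast_sub (show 2 ≤ n by omega)] at h4
  linarith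

theorem density (ε : ℝ) (hε : 0 < ε) : ∃ δ : ℝ, 0 < δ ∧ ∃ N : ℕ, ∀ n : ℕ, N ≤ n →
    ∀ H : Finset (Finset (Fin n)), (∀ e ∈ H, e.card = 3) → K43Free H →
      (copies cone H : ℝ) ≤ δ * (n : ℝ) ^ 6 → (H.card : ℝ) ≤ (5 / 9 + ε) * ((n.choose 3 : ℕ) : ℝ) := by
  refine ⟨ε / 10000, by positivity, ?_⟩
  obtain ⟨N, hN⟩ := exists_nat_gt (100 / ε + 10)
  refine ⟨max N 3, fun n hn H h3 hK hc => ?_⟩
  have hn3 : 3 ≤ n := (le_max_right _ _).trans hn
  have hnN : 100 / ε + 10 < (n : ℝ) := hN.trans_le (by exact_mod_cast (le_max_left _ _).trans hn)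
  have hεn : 100 + 10 * ε < ε * (n : ℝ) := by
    have := mul_lt_mul_of_pos_left hnN hε
    rw [mul_add, mul_div_cancel₀ _ hε.ne'] at this
    linarith
  have h : (54 : ℝ) * (n : ℝ) ^ 3 * (H.card : ℝ) ≤ 5 * (n : ℝ) ^ 6 + 17280 * (copies cone H : ℝ) + 360 * (n : ℝ) ^ 5 := by
    exact_mod_cast main n H h3 hK
  have hn0 : (0 : ℝ) < n := by exact_mod_cast (show 0 < n by omega)
  have h1 : (n : ℝ) ^ 3 * (54 * (H.card : ℝ)) ≤ (n : ℝ) ^ 3 * (5 * (n : ℝ) ^ 3 + 1.728 * ε * (n : ℝ) ^ 3 + 360 * (n : ℝ) ^ 2) := by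
    have : 17280 * (copies cone H : ℝ) ≤ 1.728 * ε * (n : ℝ) ^ 6 := by linarith
    linarith
  have h2 := le_of_mul_le_mul_left h1 (by positivity)
  rw [choose3 hn3]
  have h4 : (5 : ℝ) * n ^ 3 + 1.728 * ε * n ^ 3 + 360 * n ^ 2 ≤ 54 * ((5 / 9 + ε) * ((n : ℝ) * (n - 1) * (n - 2) / 6)) := by
    have e1 : 54 * ((5 / 9 + ε) * ((n : ℝ) * (n - 1) * (n - 2) / 6)) =
      5 * n ^ 3 + 9 * ε * n ^ 3 - (15 + 27 * ε) * n ^ 2 + (10 + 18 * ε) * n := by ring
    rw [e1]
    have e2 : 0 ≤ (n : ℝ) ^ 2 * (7.272 * (ε * n) - 375 - 27 * ε) :=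
      mul_nonneg (by positivity) (by linarith)
    have e3 : 0 ≤ (10 + 18 * ε) * (n : ℝ) := by positivity
    linarith
  linarith

open Pool.Agent.W38.TC.Lower in
theorem no_colouring : ∀ c : Fin 6 → Fin 3, ¬ ∀ i j k : Fin 6, i < j → j < k →
    (E (c i) (c j) (c k) = true ↔ ({i, j, k} : Finset (Fin 6)) ∈ cone) := by
  intro c h
  have key : ∀ a b d x y z : Fin 3, ¬ ((E a b d = true) ∧ (E a b x = true) ∧ (E a d x = true) ∧ (E b d x = false) ∧
      (E a b y = true) ∧ (E a d y = true) ∧ (E b d y = false) ∧ (E a x y = true) ∧ (E b x y = false) ∧ (E d x y = false) ∧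
      (E a b z = true) ∧ (E a d z = true) ∧ (E b d z = false) ∧ (E a x z = true) ∧ (E b x z = false) ∧ (E d x z = false) ∧
      (E a y z = false) ∧ (E b y z = false) ∧ (E d y z = false) ∧ (E x y z = false)) := by decide +kernel
  refine key (c 0) (c 1) (c 2) (c 3) (c 4) (c 5) ⟨?_, ?_, ?_, ?_, ?_, ?_, ?_, ?_, ?_, ?_, ?_, ?_, ?_, ?_, ?_, ?_, ?_, ?_, ?_, ?_⟩
  · exact (h 0 1 2 (by decide) (by decide)).2 (by decide +kernel)
  · exact (h 0 1 3 (by decide) (by decide)).2 (by decide +kernel)
  · exact (h 0 2 3 (by decide) (by decide)).2 (by decide +kernel)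
  · exact Bool.eq_false_iff.2 fun e => absurd ((h 1 2 3 (by decide) (by decide)).1 e) (by decide +kernel)
  · exact (h 0 1 4 (by decide) (by decide)).2 (by decide +kernel)
  · exact (h 0 2 4 (by decide) (by decide)).2 (by decide +kernel)
  · exact Bool.eq_false_iff.2 fun e => absurd ((h 1 2 4 (by decide) (by decide)).1 e) (by decide +kernel)
  · exact (h 0 3 4 (by decide) (by decide)).2 (by decide +kernel)
  · exact Bool.eq_false_iff.2 fun e => absurd ((h 1 3 4 (by decide) (by decide)).1 e) (by decide +kernel)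
  · exact Bool.eq_false_iff.2 fun e => absurd ((h 2 3 4 (by decide) (by decide)).1 e) (by decide +kernel)
  · exact (h 0 1 5 (by decide) (by decide)).2 (by decide +kernel)
  · exact (h 0 2 5 (by decide) (by decide)).2 (by decide +kernel)
  · exact Bool.eq_false_iff.2 fun e => absurd ((h 1 2 5 (by decide) (by decide)).1 e) (by decide +kernel)
  · exact (h 0 3 5 (by decide) (by decide)).2 (by decide +kernel)
  · exact Bool.eq_false_iff.2 fun e => absurd ((h 1 3 5 (by decide) (by decide)).1 e) (by decide +kernel)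
  · exact Bool.eq_false_iff.2 fun e => absurd ((h 2 3 5 (by decide) (by decide)).1 e) (by decide +kernel)
  · exact Bool.eq_false_iff.2 fun e => absurd ((h 0 4 5 (by decide) (by decide)).1 e) (by decide +kernel)
  · exact Bool.eq_false_iff.2 fun e => absurd ((h 1 4 5 (by decide) (by decide)).1 e) (by decide +kernel)
  · exact Bool.eq_false_iff.2 fun e => absurd ((h 2 4 5 (by decide) (by decide)).1 e) (by decide +kernel)
  · exact Bool.eq_false_iff.2 fun e => absurd ((h 3 4 5 (by decide) (by decide)).1 e) (by decide +kernel)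

open Pool.Agent.W38.TC.Lower in
/-- Turán's construction has no induced copy of `cone`. -/
theorem sharp (n : ℕ) : ∃ H : Finset (Finset (Fin n)), (∀ e ∈ H, e.card = 3) ∧ K43Free H ∧
    (∀ S, ¬ Induces cone H S) ∧ 5 * n ^ 3 ≤ 54 * H.card + 108 * n ^ 2 := by
  refine ⟨Pool.Agent.W38.TC.Lower.H, fun e he => H_card he, fun S hS => H_free S hS, ?_, ?_⟩
  · rintro S ⟨f, hf, -, hfe⟩
    refine no_colouring (fun i => p (f i)) fun i j k hij hjk => ?_
    have n1 : f i ≠ f j := fun h => hij.ne (hf h)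
    have n2 : f i ≠ f k := fun h => (hij.trans hjk).ne (hf h)
    have n3 : f j ≠ f k := fun h => hjk.ne (hf h)
    have hc : ({i, j, k} : Finset (Fin 6)).card = 3 :=
      card_eq_three.mpr ⟨i, j, k, hij.ne, (hij.trans hjk).ne, hjk.ne, rfl⟩
    have h1 := hfe {i, j, k} hc
    rw [image_insert, image_insert, image_singleton, mem_H n1 n2 n3] at h1
    exact h1
  · have h1 := H_large (n := n)
    have h5 : 5 * (n : ℝ) ^ 3 ≤
        54 * ((Pool.Agent.W38.TC.Lower.H : Finset (Finset (Fin n))).card : ℝ) + 108 * (n : ℝ) ^ 2 := by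
      nlinarith
    exact_mod_cast h5

/-- **Turán's `(3,4)`-conjecture without an induced cone over `K_5^-`.** Let `H` be a `K_4^3`-free
3-graph on `n` vertices, and let `N` be the number of vertex sets which induce a copy of `cone`.
Then `54 n³ |H| ≤ 5 n⁶ + 17280 N + 360 n⁵`. If `N = 0`, then `54 |H| ≤ 5 n³ + 360 n²`. For every
`ε > 0` there is `δ > 0` such that `|H| ≤ (5/9 + ε) C(n,3)` if `N ≤ δ n⁶` and `n` is large. For every
`n` Turán's construction is such a 3-graph with `N = 0` and `5 n³ ≤ 54 |H| + 108 n²`. -/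
theorem result :
    (∀ (n : ℕ) (H : Finset (Finset (Fin n))), (∀ e ∈ H, e.card = 3) → K43Free H →
      54 * n ^ 3 * H.card ≤ 5 * n ^ 6 + 17280 * copies cone H + 360 * n ^ 5) ∧
    (∀ (n : ℕ) (H : Finset (Finset (Fin n))), (∀ e ∈ H, e.card = 3) → K43Free H →
      (∀ S, ¬ Induces cone H S) → 54 * H.card ≤ 5 * n ^ 3 + 360 * n ^ 2) ∧
    (∀ ε : ℝ, 0 < ε → ∃ δ : ℝ, 0 < δ ∧ ∃ N : ℕ, ∀ n : ℕ, N ≤ n →
      ∀ H : Finset (Finset (Fin n)), (∀ e ∈ H, e.card = 3) → K43Free H →
        (copies cone H : ℝ) ≤ δ * (n : ℝ) ^ 6 → (H.card : ℝ) ≤ (5 / 9 + ε) * ((n.choose 3 : ℕ) : ℝ)) ∧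
    (∀ n : ℕ, ∃ H : Finset (Finset (Fin n)), (∀ e ∈ H, e.card = 3) ∧ K43Free H ∧
      (∀ S, ¬ Induces cone H S) ∧ 5 * n ^ 3 ≤ 54 * H.card + 108 * n ^ 2) :=
  ⟨main, of_free, density, sharp⟩

end Pool.Agent.Results.MP_f1799f_co.ConeOverK5Minus
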