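import Pool.Agent.T2H46.F20.Lab
import Pool.Agent.W38.TC.Lower

/-!
# Turán's `(3,4)`-problem: 3-graphs without an induced copy of `{012, 014, 024, 034, 123}`

`pat` is the 3-graph on the vertices `0, ..., 4` with the five edges `012, 014, 024, 034, 123`. We
prove Turán's bound `|H| ≤ (5/54) n³` for every `K_4^3`-free 3-graph `H` on `n` vertices without an
induced copy of `pat`, for all `n`, and the density bound `5/9 + o(1)` for all `K_4^3`-free 3-graphs
with `o(n⁵)` induced copies of `pat`; Turán's construction has no induced copy.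

Outline: the sum of squares method for six-vertex structures alone gives slightly more than `5/9`. We
add that in a structure with the maximum number of edges all degrees are equal (a vertex can be
replaced by a clone of another one, since every pair of vertices of `pat` is in an edge) with a
different multiplier for every type on two pairs of labelled vertices. The certificate is exact: the
17 tight six-vertex structures are the eight which occur in Turán's construction and nine which arise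
from it if the two kinds of edges at one pair of vertices are exchanged. It is checked by the kernel.
For the statement with few copies one averages over all maps from a set with a bounded number of
elements to the vertices.
-/

set_option autoImplicit false
set_option maxRecDepth 100000
open Finset
open scoped Classical

namespace Pool.Agent.Results.MP_f1799f_co.FiveVertexNoCopy

/-- The 3-graph `H` has no four vertices spanning all four triples. -/
def K43Free {n : ℕ} (H : Finset (Finset (Fin n))) : Prop :=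
  ∀ S : Finset (Fin n), S.card = 4 → ∃ s ⊆ S, s.card = 3 ∧ s ∉ H

/-- The set `S` of vertices induces a copy of the 3-graph `F` in `H`: there is a bijection from the
vertices of `F` to `S` that maps edges to edges and non-edges to non-edges. -/
def Induces {k n : ℕ} (F : Finset (Finset (Fin k))) (H : Finset (Finset (Fin n)))
    (S : Finset (Fin n)) : Prop :=
  ∃ f : Fin k → Fin n, Function.Injective f ∧ univ.image f = S ∧
    ∀ t : Finset (Fin k), t.card = 3 → (t.image f ∈ H ↔ t ∈ F)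

/-- The number of sets of vertices which induce a copy of `F` in `H`. -/
noncomputable def copies {k n : ℕ} (F : Finset (Finset (Fin k))) (H : Finset (Finset (Fin n))) : ℕ :=
  ((univ : Finset (Finset (Fin n))).filter fun S => Induces F H S).card

/-- The 3-graph on `0, ..., 4` with the edges `012, 014, 024, 034, 123`. -/
def pat : Finset (Finset (Fin 5)) :=
  {{0, 1, 2}, {0, 1, 4}, {0, 2, 4}, {0, 3, 4}, {1, 2, 3}}

theorem mask : Pool.Agent.H37R3.Cop5.Mask5 Pool.Agent.T2H46.F20.mF pat :=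
  ⟨by decide +kernel, by decide +kernel⟩

theorem set_eq {α : Type} [DecidableEq α] (a b c : α) : (@insert _ _ (@Finset.instInsert _
    fun x y => Classical.propDecidable (x = y)) a (@insert _ _ (@Finset.instInsert _
    fun x y => Classical.propDecidable (x = y)) b {c}) : Finset α) = {a, b, c} := by
  ext x
  simp only [Finset.mem_insert, Finset.mem_singleton]

theorem tri_one {n : ℕ} (H : Finset (Finset (Fin n))) (a b c : Fin n) :
    Pool.Agent.H122R2.N6.tri H a b c = 1 ↔ ({a, b, c} : Finset (Fin n)) ∈ H := by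
  rw [Pool.Agent.H37R3.Cop.tri_one, set_eq]

open Pool.Agent.H122R2.N6 Pool.Agent.H37R3.Cop5 Pool.Agent.H37R3.Lag in
theorem inj_of_copy {n : ℕ} {H : Finset (Finset (Fin n))} (h3 : ∀ e ∈ H, e.card = 3)
    (f : Fin 5 → Fin n) (hc : Copy5 (tri H) Pool.Agent.T2H46.F20.mF f) : Function.Injective f := by
  intro i j hij
  by_contra hne
  obtain ⟨k, hk1, hk2, hk3⟩ := mask.2 i j hne
  have h1 := hc.full (tri_sy H) i j k hne (Ne.symm hk1) (Ne.symm hk2)
  rw [hk3, Pool.Agent.H37R3.Cop.tri_one] at h1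
  exact (distinct_of_mem h3 h1).1 hij

open Pool.Agent.H122R2.N6 Pool.Agent.H37R3.Cop5 Pool.Agent.H37R3.Lag in
theorem induces_of_copy {n : ℕ} {H : Finset (Finset (Fin n))} (h3 : ∀ e ∈ H, e.card = 3)
    (f : Fin 5 → Fin n) (hc : Copy5 (tri H) Pool.Agent.T2H46.F20.mF f) :
    Induces pat H (univ.image f) := by
  refine ⟨f, inj_of_copy h3 f hc, rfl, ?_⟩
  intro t ht
  obtain ⟨i, j, k, hij, hjk, rfl⟩ := Pool.Agent.H37R3.K5.sorted5 t ht
  rw [image_insert, image_insert, image_singleton]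
  have h1 := hc i j k hij hjk
  constructor
  · intro h
    have h2 : tri H (f i) (f j) (f k) = 1 := (tri_one H _ _ _).2 h
    rw [h1] at h2
    exact (mask.1 i j k hij hjk).1 h2
  · intro h
    have h2 := (mask.1 i j k hij hjk).2 h
    rw [← h1] at h2
    exact (tri_one H _ _ _).1 h2

theorem zero_n {H : Finset (Finset (Fin 0))} (h3 : ∀ e ∈ H, e.card = 3) : H = ∅ := by
  rw [eq_empty_iff_forall_notMem]
  intro e he
  have h1 := h3 e he
  have h2 := card_le_univ e
  rw [Fintype.card_fin, h1] at h2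
  omega

open Pool.Agent.H122R2.N6 Pool.Agent.H37R3.Cop5 Pool.Agent.H37R3.Lag in
theorem of_free (n : ℕ) (H : Finset (Finset (Fin n))) (h3 : ∀ e ∈ H, e.card = 3) (hK : K43Free H)
    (hX : ∀ S, ¬ Induces pat H S) : 54 * H.card ≤ 5 * n ^ 3 := by
  have h1 : 9 * TT (tri H) ≤ 5 * n ^ 3 :=
    Pool.Agent.T2H46.F20.main_pull (tri_sy H) (tri_noK4 h3 hK) (m := n) id
      (fun i hi => hX _ (induces_of_copy h3 _ hi))
  have h2 := six_card_le h3
  have h3 : ∑ a, ∑ b, ∑ c, tri H a b c = TT (tri H) := rfl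
  omega

open Pool.Agent.H122R2.N6 Pool.Agent.H37R3.Cop5 Pool.Agent.H37R3.Lag in
theorem few (n : ℕ) (H : Finset (Finset (Fin n))) (h3 : ∀ e ∈ H, e.card = 3) (hK : K43Free H)
    (m : ℕ) (hm : 5 ≤ m) :
    54 * ((m - 1) * (m - 2)) * (n ^ 2 * H.card) ≤ 5 * m ^ 2 * n ^ 5 + 18 * m ^ 7 * copies pat H := by
  rcases Nat.eq_zero_or_pos n with rfl | hn
  · rw [zero_n h3]; simp
  · have : Nonempty (Fin n) := ⟨⟨0, hn⟩⟩
    have h1 := Pool.Agent.T2H46.F20.samp_div (tri_sy H) (tri_noK4 h3 hK) (inj_of_copy h3) m hm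
    rw [Fintype.card_fin] at h1
    have h2 := Pool.Agent.T2H46.F20.lab_le (tri_sy H) (inj_of_copy h3)
    have h4 : ((univ : Finset (Finset (Fin n))).filter fun S =>
        ∃ f : Fin 5 → Fin n, Copy5 (tri H) Pool.Agent.T2H46.F20.mF f ∧ univ.image f = S).card ≤ copies pat H := by
      unfold copies
      refine card_le_card fun S hS => ?_
      rw [mem_filter] at hS ⊢
      obtain ⟨-, f, hf, rfl⟩ := hS
      exact ⟨mem_univ _, induces_of_copy h3 f hf⟩
    have h5 := six_card_le h3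
    have h6 : 6 * H.card ≤ TT (tri H) := h5
    have h7 : Pool.Agent.T2H46.F20.lab (tri H) ≤ 2 * copies pat H :=
      h2.trans (Nat.mul_le_mul_left 2 h4)
    calc 54 * ((m - 1) * (m - 2)) * (n ^ 2 * H.card)
        = 9 * ((m - 1) * (m - 2)) * (n ^ 2 * (6 * H.card)) := by ring
      _ ≤ 9 * ((m - 1) * (m - 2)) * (n ^ 2 * TT (tri H)) :=
          Nat.mul_le_mul_left _ (Nat.mul_le_mul_left _ h6)
      _ ≤ 5 * m ^ 2 * n ^ 5 + 9 * m ^ 7 * Pool.Agent.T2H46.F20.lab (tri H) := h1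
      _ ≤ 5 * m ^ 2 * n ^ 5 + 9 * m ^ 7 * (2 * copies pat H) :=
          Nat.add_le_add_left (Nat.mul_le_mul_left _ h7) _
      _ = 5 * m ^ 2 * n ^ 5 + 18 * m ^ 7 * copies pat H := by ring

theorem choose3 {n : ℕ} (hn : 3 ≤ n) : ((n.choose 3 : ℕ) : ℝ) = (n : ℝ) * (n - 1) * (n - 2) / 6 := by
  have h1 : n.choose 3 * 6 = n * (n - 1) * (n - 2) := by
    have := Nat.descFactorial_eq_factorial_mul_choose n 3
    have h2 : n.descFactorial 3 = (n - 2) * ((n - 1) * n) := by
      simp [Nat.descFactorial]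
    rw [h2] at this
    have h3 : Nat.factorial 3 = 6 := rfl
    rw [h3] at this
    linarith
  have h4 : ((n.choose 3 * 6 : ℕ) : ℝ) = ((n * (n - 1) * (n - 2) : ℕ) : ℝ) := by rw [h1]
  push_cast [Nat.cast_sub (show 1 ≤ n by omega), Nat.cast_sub (show 2 ≤ n by omega)] at h4
  linarith

theorem density (ε : ℝ) (hε : 0 < ε) : ∃ δ : ℝ, 0 < δ ∧ ∃ N : ℕ, ∀ n : ℕ, N ≤ n →
    ∀ H : Finset (Finset (Fin n)), (∀ e ∈ H, e.card = 3) → K43Free H →
      (copies pat H : ℝ) ≤ δ * (n : ℝ) ^ 5 →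
        (H.card : ℝ) ≤ (5 / 9 + ε) * ((n.choose 3 : ℕ) : ℝ) := by
  obtain ⟨m, hm⟩ := exists_nat_gt (20 / ε + 10)
  have hεm : 20 + 10 * ε < ε * (m : ℝ) := by
    have := mul_lt_mul_of_pos_left hm hε
    rw [mul_add, mul_div_cancel₀ _ hε.ne'] at this
    linarith
  have hm10 : (10 : ℝ) < m := by
    have : 0 < 20 / ε := by positivity
    linarith
  have hm5 : 5 ≤ m := by
    have : (10 : ℝ) < (m : ℝ) := hm10
    have : 10 < m := by exact_mod_cast this
    omega
  have hm0 : (0 : ℝ) < m := by linarith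
  have hm1 : (0 : ℝ) < m - 1 := by linarith
  have hm2 : (0 : ℝ) < m - 2 := by linarith
  refine ⟨ε / (36 * (m : ℝ) ^ 7), by positivity, ?_⟩
  obtain ⟨N, hN⟩ := exists_nat_gt (100 / ε + 10)
  refine ⟨max N 3, fun n hn H h3 hK hc => ?_⟩
  have hn3 : 3 ≤ n := (le_max_right _ _).trans hn
  have hnN : 100 / ε + 10 < (n : ℝ) := hN.trans_le (by exact_mod_cast (le_max_left _ _).trans hn)
  have hεn : 100 + 10 * ε < ε * (n : ℝ) := by
    have := mul_lt_mul_of_pos_left hnN hε
    rw [mul_add, mul_div_cancel₀ _ hε.ne'] at this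
    linarith
  have hn0 : (0 : ℝ) < n := by exact_mod_cast (show 0 < n by omega)
  have h : 54 * (((m : ℝ) - 1) * (m - 2)) * ((n : ℝ) ^ 2 * (H.card : ℝ)) ≤
      5 * (m : ℝ) ^ 2 * (n : ℝ) ^ 5 + 18 * (m : ℝ) ^ 7 * (copies pat H : ℝ) := by
    have h0 := few n H h3 hK m hm5
    have h1 : ((54 * ((m - 1) * (m - 2)) * (n ^ 2 * H.card) : ℕ) : ℝ) ≤
      ((5 * m ^ 2 * n ^ 5 + 18 * m ^ 7 * copies pat H : ℕ) : ℝ) := by exact_mod_cast h0
    push_cast [Nat.cast_sub (show 1 ≤ m by omega), Nat.cast_sub (show 2 ≤ m by omega)] at h1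
    exact h1
  have h1 : 18 * (m : ℝ) ^ 7 * (copies pat H : ℝ) ≤ ε / 2 * (n : ℝ) ^ 5 := by
    calc 18 * (m : ℝ) ^ 7 * (copies pat H : ℝ)
        ≤ 18 * (m : ℝ) ^ 7 * (ε / (36 * (m : ℝ) ^ 7) * (n : ℝ) ^ 5) := by gcongr
      _ = ε / 2 * (n : ℝ) ^ 5 := by field_simp; norm_num
  -- the quotient `5 m² / ((m-1)(m-2))` is at most `5 + ε`
  have h2 : 5 * (m : ℝ) ^ 2 ≤ (5 + ε) * (((m : ℝ) - 1) * (m - 2)) := by nlinarith
  have hq : (1 : ℝ) ≤ ((m : ℝ) - 1) * (m - 2) := by nlinarith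
  have h4 : (((m : ℝ) - 1) * (m - 2)) * (n : ℝ) ^ 2 * (54 * (H.card : ℝ)) ≤
      (((m : ℝ) - 1) * (m - 2)) * (n : ℝ) ^ 2 * ((5 + 2 * ε) * (n : ℝ) ^ 3) := by
    have e1 : 5 * (m : ℝ) ^ 2 * (n : ℝ) ^ 5 ≤ (5 + ε) * (((m : ℝ) - 1) * (m - 2)) * (n : ℝ) ^ 5 := by gcongr
    have e2 : ε / 2 * (n : ℝ) ^ 5 ≤ ε * (((m : ℝ) - 1) * (m - 2)) * (n : ℝ) ^ 5 := by
      have : ε / 2 ≤ ε * (((m : ℝ) - 1) * (m - 2)) := by nlinarith
      gcongr
    calc (((m : ℝ) - 1) * (m - 2)) * (n : ℝ) ^ 2 * (54 * (H.card : ℝ))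
        = 54 * (((m : ℝ) - 1) * (m - 2)) * ((n : ℝ) ^ 2 * (H.card : ℝ)) := by ring
      _ ≤ 5 * (m : ℝ) ^ 2 * (n : ℝ) ^ 5 + 18 * (m : ℝ) ^ 7 * (copies pat H : ℝ) := h
      _ ≤ (5 + ε) * (((m : ℝ) - 1) * (m - 2)) * (n : ℝ) ^ 5 + ε * (((m : ℝ) - 1) * (m - 2)) * (n : ℝ) ^ 5 := by
          linarith
      _ = _ := by ring
  have h5 : 54 * (H.card : ℝ) ≤ (5 + 2 * ε) * (n : ℝ) ^ 3 := le_of_mul_le_mul_left h4 (by positivity)
  rw [choose3 hn3]
  have h6 : (5 + 2 * ε) * (n : ℝ) ^ 3 ≤ 54 * ((5 / 9 + ε) * ((n : ℝ) * (n - 1) * (n - 2) / 6)) := by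
    have e1 : 54 * ((5 / 9 + ε) * ((n : ℝ) * (n - 1) * (n - 2) / 6)) =
      5 * n ^ 3 + 9 * ε * n ^ 3 - (15 + 27 * ε) * n ^ 2 + (10 + 18 * ε) * n := by ring
    rw [e1]
    have e2 : 0 ≤ (n : ℝ) ^ 2 * (7 * (ε * n) - 15 - 27 * ε) :=
      mul_nonneg (by positivity) (by linarith)
    have e3 : 0 ≤ (10 + 18 * ε) * (n : ℝ) := by positivity
    linarith
  linarith

open Pool.Agent.W38.TC.Lower in
theorem no_colouring : ∀ c : Fin 5 → Fin 3, ¬ ∀ i j k : Fin 5, i < j → j < k →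
    (E (c i) (c j) (c k) = true ↔ ({i, j, k} : Finset (Fin 5)) ∈ pat) := by
  intro c h
  have key : ∀ a b d x y : Fin 3, ¬ ((E a b d = true) ∧ (E a b x = false) ∧ (E a d x = false) ∧
      (E b d x = true) ∧ (E a b y = true) ∧ (E a d y = true) ∧ (E b d y = false) ∧ (E a x y = true) ∧
      (E b x y = false) ∧ (E d x y = false)) := by decide +kernel
  refine key (c 0) (c 1) (c 2) (c 3) (c 4) ⟨?_, ?_, ?_, ?_, ?_, ?_, ?_, ?_, ?_, ?_⟩
  · exact (h 0 1 2 (by decide) (by decide)).2 (by decide +kernel)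
  · exact Bool.eq_false_iff.2 fun e => absurd ((h 0 1 3 (by decide) (by decide)).1 e) (by decide +kernel)
  · exact Bool.eq_false_iff.2 fun e => absurd ((h 0 2 3 (by decide) (by decide)).1 e) (by decide +kernel)
  · exact (h 1 2 3 (by decide) (by decide)).2 (by decide +kernel)
  · exact (h 0 1 4 (by decide) (by decide)).2 (by decide +kernel)
  · exact (h 0 2 4 (by decide) (by decide)).2 (by decide +kernel)
  · exact Bool.eq_false_iff.2 fun e => absurd ((h 1 2 4 (by decide) (by decide)).1 e) (by decide +kernel)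
  · exact (h 0 3 4 (by decide) (by decide)).2 (by decide +kernel)
  · exact Bool.eq_false_iff.2 fun e => absurd ((h 1 3 4 (by decide) (by decide)).1 e) (by decide +kernel)
  · exact Bool.eq_false_iff.2 fun e => absurd ((h 2 3 4 (by decide) (by decide)).1 e) (by decide +kernel)

open Pool.Agent.W38.TC.Lower in
/-- Turán's construction has no induced copy of `pat`. -/
theorem sharp (n : ℕ) : ∃ H : Finset (Finset (Fin n)), (∀ e ∈ H, e.card = 3) ∧ K43Free H ∧
    (∀ S, ¬ Induces pat H S) ∧ 5 * n ^ 3 ≤ 54 * H.card + 108 * n ^ 2 := by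
  refine ⟨Pool.Agent.W38.TC.Lower.H, fun e he => H_card he, fun S hS => H_free S hS, ?_, ?_⟩
  · rintro S ⟨f, hf, -, hfe⟩
    refine no_colouring (fun i => p (f i)) fun i j k hij hjk => ?_
    have n1 : f i ≠ f j := fun h => hij.ne (hf h)
    have n2 : f i ≠ f k := fun h => (hij.trans hjk).ne (hf h)
    have n3 : f j ≠ f k := fun h => hjk.ne (hf h)
    have hc : ({i, j, k} : Finset (Fin 5)).card = 3 :=
      card_eq_three.mpr ⟨i, j, k, hij.ne, (hij.trans hjk).ne, hjk.ne, rfl⟩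
    have h1 := hfe {i, j, k} hc
    rw [image_insert, image_insert, image_singleton, mem_H n1 n2 n3] at h1
    exact h1
  · have h1 := H_large (n := n)
    have h5 : 5 * (n : ℝ) ^ 3 ≤
        54 * ((Pool.Agent.W38.TC.Lower.H : Finset (Finset (Fin n))).card : ℝ) + 108 * (n : ℝ) ^ 2 := by
      nlinarith
    exact_mod_cast h5

/-- **Turán's `(3,4)`-conjecture without induced copies of one 3-graph on five vertices.** Let `H` be
a `K_4^3`-free 3-graph on `n` vertices. If `H` has no induced copy of `pat`, then `|H| ≤ (5/54) n³`.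
If `N` vertex sets induce a copy of `pat`, then
`54 (m-1)(m-2) n² |H| ≤ 5 m² n⁵ + 18 m⁷ N` for every `m ≥ 5`. So for every `ε > 0` there is `δ > 0`
such that `|H| ≤ (5/9 + ε) C(n,3)` if `N ≤ δ n⁵` and `n` is large. For every `n` Turán's construction
is such a 3-graph with `N = 0` and `5 n³ ≤ 54 |H| + 108 n²`. -/
theorem result :
    (∀ (n : ℕ) (H : Finset (Finset (Fin n))), (∀ e ∈ H, e.card = 3) → K43Free H →
      (∀ S, ¬ Induces pat H S) → 54 * H.card ≤ 5 * n ^ 3) ∧
    (∀ (n : ℕ) (H : Finset (Finset (Fin n))), (∀ e ∈ H, e.card = 3) → K43Free H →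
      ∀ m : ℕ, 5 ≤ m →
        54 * ((m - 1) * (m - 2)) * (n ^ 2 * H.card) ≤ 5 * m ^ 2 * n ^ 5 + 18 * m ^ 7 * copies pat H) ∧
    (∀ ε : ℝ, 0 < ε → ∃ δ : ℝ, 0 < δ ∧ ∃ N : ℕ, ∀ n : ℕ, N ≤ n →
      ∀ H : Finset (Finset (Fin n)), (∀ e ∈ H, e.card = 3) → K43Free H →
        (copies pat H : ℝ) ≤ δ * (n : ℝ) ^ 5 → (H.card : ℝ) ≤ (5 / 9 + ε) * ((n.choose 3 : ℕ) : ℝ)) ∧
    (∀ n : ℕ, ∃ H : Finset (Finset (Fin n)), (∀ e ∈ H, e.card = 3) ∧ K43Free H ∧
      (∀ S, ¬ Induces pat H S) ∧ 5 * n ^ 3 ≤ 54 * H.card + 108 * n ^ 2) :=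
  ⟨of_free, few, density, sharp⟩

end Pool.Agent.Results.MP_f1799f_co.FiveVertexNoCopy
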