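import Pool.Agent.T2H13.B7.Fin7
import Pool.Agent.W38.TC.Lower

/-!
# Turán's `(3,4)`-problem: two unavoidable 3-graphs with seven vertices and 22 edges

Let `T` be Turán's construction with the parts `{0,1,2}`, `{3,4}`, `{5,6}`. `exA` is obtained from `T`
if on the pair `01` (inside the part of size 3) the edges `013`, `014` are exchanged for `012`, and
`exB` if on the pair `03` (between two parts) the edges `035`, `036` are exchanged for `034`. Both
have 22 edges. For every `K_4^3`-free 3-graph `H` on `n` vertices with `N` induced copies of `exA` and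
`exB` we prove `54 n⁴ |H| ≤ 5 n⁷ + 15120 N`, that is, the edge density is at most `5/9 + p/3` where
`p` is the density of the copies (up to lower order terms). So Turán's bound `|H| ≤ (5/54) n³` holds if
`H` has no induced copy of `exA` and `exB`, in particular if no seven vertices of `H` span exactly 22
edges. Seven vertices of Turán's construction never span exactly 22 edges.

Outline: a sum of squares certificate for seven-vertex structures: types with 5, 3, 4 and 2 labelled
vertices. Of the 1295793 structures on seven vertices, the ten in Turán's construction have value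
zero, `exA` and `exB` have positive value, and all others have negative value. This is checked by the
kernel with long integers which hold many leaf sums.
-/

set_option autoImplicit false
set_option maxRecDepth 100000
open Finset
open scoped Classical

namespace Pool.Agent.Results.MP_f1799f_co.SevenVerticesTwentyTwoEdges

/-- The 3-graph `H` has no four vertices spanning all four triples. -/
def K43Free {n : ℕ} (H : Finset (Finset (Fin n))) : Prop :=
  ∀ S : Finset (Fin n), S.card = 4 → ∃ s ⊆ S, s.card = 3 ∧ s ∉ H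

/-- The set `S` of vertices induces a copy of the 3-graph `F` in `H`: there is a bijection from the
vertices of `F` to `S` that maps edges to edges and non-edges to non-edges. -/
def Induces {k n : ℕ} (F : Finset (Finset (Fin k))) (H : Finset (Finset (Fin n)))
    (S : Finset (Fin n)) : Prop :=
  ∃ f : Fin k → Fin n, Function.Injective f ∧ univ.image f = S ∧
    ∀ t : Finset (Fin k), t.card = 3 → (t.image f ∈ H ↔ t ∈ F)

/-- The number of sets of vertices which induce a copy of `F` in `H`. -/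
noncomputable def copies {k n : ℕ} (F : Finset (Finset (Fin k))) (H : Finset (Finset (Fin n))) : ℕ :=
  ((univ : Finset (Finset (Fin n))).filter fun S => Induces F H S).card

/-- Turán's construction with the parts `{0,1,2}`, `{3,4}`, `{5,6}` and the pair `01` exchanged:
`012` is an edge, `013` and `014` are not. -/
def exA : Finset (Finset (Fin 7)) :=
  {{0, 1, 2}, {0, 2, 3}, {1, 2, 3}, {0, 2, 4}, {1, 2, 4}, {0, 3, 5}, {1, 3, 5}, {2, 3, 5}, {0, 4, 5},
   {1, 4, 5}, {2, 4, 5}, {3, 4, 5}, {0, 3, 6}, {1, 3, 6}, {2, 3, 6}, {0, 4, 6}, {1, 4, 6}, {2, 4, 6},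
   {3, 4, 6}, {0, 5, 6}, {1, 5, 6}, {2, 5, 6}}

/-- Turán's construction with the parts `{0,1,2}`, `{3,4}`, `{5,6}` and the pair `03` exchanged:
`034` is an edge, `035` and `036` are not. -/
def exB : Finset (Finset (Fin 7)) :=
  {{0, 1, 3}, {0, 2, 3}, {1, 2, 3}, {0, 1, 4}, {0, 2, 4}, {1, 2, 4}, {0, 3, 4}, {1, 3, 5}, {2, 3, 5},
   {0, 4, 5}, {1, 4, 5}, {2, 4, 5}, {3, 4, 5}, {1, 3, 6}, {2, 3, 6}, {0, 4, 6}, {1, 4, 6}, {2, 4, 6},
   {3, 4, 6}, {0, 5, 6}, {1, 5, 6}, {2, 5, 6}}

/-- The number of edges of `H` inside the set `S`. -/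
noncomputable def edgesIn {n : ℕ} (H : Finset (Finset (Fin n))) (S : Finset (Fin n)) : ℕ :=
  (H.filter fun e => e ⊆ S).card

/-- The number of sets of seven vertices which span exactly 22 edges. -/
noncomputable def sevens {n : ℕ} (H : Finset (Finset (Fin n))) : ℕ :=
  (((univ : Finset (Fin n)).powersetCard 7).filter fun S => edgesIn H S = 22).card

theorem img {k n : ℕ} (f : Fin k → Fin n) (t : Finset (Fin k)) :
    @Finset.image _ _ (fun a b => Classical.propDecidable (a = b)) f t =
      @Finset.image _ _ (instDecidableEqFin n) f t := by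
  ext v
  simp only [mem_image]

theorem ind_iff {n : ℕ} (F : Finset (Finset (Fin 7))) (H : Finset (Finset (Fin n)))
    (S : Finset (Fin n)) : Pool.Agent.T2H13.B7.Ind7 F H S → Induces F H S := by
  rintro ⟨f, hf, hS, h⟩
  refine ⟨f, hf, ?_, ?_⟩
  · ext v
    rw [hS v]
    simp only [mem_image, mem_univ, true_and]
  · intro t ht
    obtain ⟨i, j, k, hij, hik, hjk, rfl⟩ := Pool.Agent.T2H13.B7.sorted7 t ht
    rw [← h i j k hij hik hjk, image_insert, image_insert, image_singleton]
    constructor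
    · intro h1
      exact ⟨_, h1, fun v => by simp⟩
    · rintro ⟨e, he, h1⟩
      have : e = {f i, f j, f k} := by
        ext v
        rw [h1 v]
        simp
      rwa [← this]

theorem maskA : ∀ i j k : Fin 7, i ≠ j → i ≠ k → j ≠ k →
    (Pool.Agent.T2H13.B7.Fs Pool.Agent.T2H13.B7.FA i j k = 1 ↔ ({i, j, k} : Finset (Fin 7)) ∈ exA) := by
  decide +kernel

theorem maskB : ∀ i j k : Fin 7, i ≠ j → i ≠ k → j ≠ k →
    (Pool.Agent.T2H13.B7.Fs Pool.Agent.T2H13.B7.FB i j k = 1 ↔ ({i, j, k} : Finset (Fin 7)) ∈ exB) := by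
  decide +kernel

theorem main' (n : ℕ) (H : Finset (Finset (Fin n))) (h3 : ∀ e ∈ H, e.card = 3) (hK : K43Free H) :
    54 * n ^ 4 * H.card ≤ 5 * n ^ 7 +
      15120 * ((univ : Finset (Finset (Fin n))).filter fun S => Induces exA H S ∨ Induces exB H S).card := by
  have h := Pool.Agent.T2H13.B7.main7 (V := Fin n) h3 hK
  have h2 := Pool.Agent.T2H13.B7.sum_Y_le (V := Fin n) h3 maskA maskB
  rw [Fintype.card_fin] at h
  have h4 : (((univ : Finset (Fin n)).powersetCard 7).filter fun S =>
      Pool.Agent.T2H13.B7.Ind7 exA H S ∨ Pool.Agent.T2H13.B7.Ind7 exB H S).card ≤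
      ((univ : Finset (Finset (Fin n))).filter fun S => Induces exA H S ∨ Induces exB H S).card := by
    refine card_le_card fun S hS => ?_
    rw [mem_filter] at hS ⊢
    exact ⟨mem_univ _, hS.2.imp (ind_iff _ _ _) (ind_iff _ _ _)⟩
  omega

theorem main (n : ℕ) (H : Finset (Finset (Fin n))) (h3 : ∀ e ∈ H, e.card = 3) (hK : K43Free H) :
    54 * n ^ 4 * H.card ≤ 5 * n ^ 7 + 15120 * (copies exA H + copies exB H) := by
  have h := main' n H h3 hK
  have h4 : ((univ : Finset (Finset (Fin n))).filter fun S => Induces exA H S ∨ Induces exB H S).card ≤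
      copies exA H + copies exB H := by
    unfold copies
    rw [filter_or]
    exact card_union_le _ _
  omega

theorem div_n {n a b : ℕ} (hn : 0 < n) (h : 54 * n ^ 4 * a ≤ 5 * n ^ 7 + 15120 * b) (hb : b = 0) :
    54 * a ≤ 5 * n ^ 3 := by
  rw [hb] at h
  have hn4 : 0 < n ^ 4 := by positivity
  refine Nat.le_of_mul_le_mul_left ?_ hn4
  calc n ^ 4 * (54 * a) = 54 * n ^ 4 * a := by ring
    _ ≤ 5 * n ^ 7 + 15120 * 0 := h
    _ = n ^ 4 * (5 * n ^ 3) := by ring

theorem zero_n {H : Finset (Finset (Fin 0))} (h3 : ∀ e ∈ H, e.card = 3) : H = ∅ := by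
  rw [eq_empty_iff_forall_notMem]
  intro e he
  have h1 := h3 e he
  have h2 := card_le_univ e
  rw [Fintype.card_fin, h1] at h2
  omega

theorem copies_zero {k n : ℕ} {F : Finset (Finset (Fin k))} {H : Finset (Finset (Fin n))}
    (h : ∀ S, ¬ Induces F H S) : copies F H = 0 := by
  unfold copies
  rw [card_eq_zero, filter_eq_empty_iff]
  exact fun S _ => h S

theorem of_free (n : ℕ) (H : Finset (Finset (Fin n))) (h3 : ∀ e ∈ H, e.card = 3) (hK : K43Free H)
    (hX : ∀ S, ¬ Induces exA H S ∧ ¬ Induces exB H S) : 54 * H.card ≤ 5 * n ^ 3 := by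
  rcases Nat.eq_zero_or_pos n with rfl | hn
  · rw [zero_n h3]; simp
  · exact div_n hn (main n H h3 hK) (by
      rw [copies_zero fun S => (hX S).1, copies_zero fun S => (hX S).2])

/-! ### Sets of seven vertices with 22 edges -/

theorem edges_of_induces {n : ℕ} {F : Finset (Finset (Fin 7))} {H : Finset (Finset (Fin n))}
    (h3 : ∀ e ∈ H, e.card = 3) (hF : ∀ t ∈ F, t.card = 3) {S : Finset (Fin n)} (h : Induces F H S) :
    S.card = 7 ∧ edgesIn H S = F.card := by
  obtain ⟨f, hf, hS, ht⟩ := h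
  refine ⟨by rw [← hS, card_image_of_injective _ hf]; rfl, ?_⟩
  unfold edgesIn
  have e : (H.filter fun e => e ⊆ S) = F.image (fun t => t.image f) := by
    ext e
    rw [mem_filter, mem_image]
    constructor
    · rintro ⟨he, hes⟩
      refine ⟨univ.filter fun i => f i ∈ e, ?_, ?_⟩
      · have h1 : (univ.filter fun i => f i ∈ e).image f = e := by
          ext v
          simp only [mem_image, mem_filter, mem_univ, true_and]
          constructor
          · rintro ⟨i, hi, rfl⟩; exact hi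
          · intro hv
            have h2 := hes hv
            rw [← hS, mem_image] at h2
            obtain ⟨i, -, rfl⟩ := h2
            exact ⟨i, hv, rfl⟩
        have h2 : (univ.filter fun i => f i ∈ e).card = 3 := by
          rw [← card_image_of_injective _ hf, h1, h3 e he]
        rw [← ht _ h2, h1]
        exact he
      · ext v
        simp only [mem_image, mem_filter, mem_univ, true_and]
        constructor
        · rintro ⟨i, hi, rfl⟩; exact hi
        · intro hv
          have h2 := hes hv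
          rw [← hS, mem_image] at h2
          obtain ⟨i, -, rfl⟩ := h2
          exact ⟨i, hv, rfl⟩
    · rintro ⟨t, htF, rfl⟩
      refine ⟨(ht t (hF t htF)).2 htF, ?_⟩
      rw [← hS]
      exact image_subset_image (subset_univ _)
  rw [e]
  exact card_image_of_injective _ (image_injective hf)

theorem A3 : (∀ t ∈ exA, t.card = 3) ∧ exA.card = 22 := by decide +kernel
theorem B3 : (∀ t ∈ exB, t.card = 3) ∧ exB.card = 22 := by decide +kernel

theorem main22 (n : ℕ) (H : Finset (Finset (Fin n))) (h3 : ∀ e ∈ H, e.card = 3) (hK : K43Free H) :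
    54 * n ^ 4 * H.card ≤ 5 * n ^ 7 + 15120 * sevens H := by
  have h := main' n H h3 hK
  have h4 : ((univ : Finset (Finset (Fin n))).filter fun S => Induces exA H S ∨ Induces exB H S).card ≤
      sevens H := by
    refine card_le_card fun S hS => ?_
    rw [mem_filter] at hS ⊢
    rcases hS.2 with h5 | h5
    · have h6 := edges_of_induces h3 A3.1 h5
      exact ⟨mem_powersetCard.mpr ⟨subset_univ _, h6.1⟩, h6.2.trans A3.2⟩
    · have h6 := edges_of_induces h3 B3.1 h5
      exact ⟨mem_powersetCard.mpr ⟨subset_univ _, h6.1⟩, h6.2.trans B3.2⟩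
  omega

theorem of_free22 (n : ℕ) (H : Finset (Finset (Fin n))) (h3 : ∀ e ∈ H, e.card = 3) (hK : K43Free H)
    (hX : ∀ S : Finset (Fin n), S.card = 7 → edgesIn H S ≠ 22) : 54 * H.card ≤ 5 * n ^ 3 := by
  rcases Nat.eq_zero_or_pos n with rfl | hn
  · rw [zero_n h3]; simp
  · refine div_n hn (main22 n H h3 hK) ?_
    unfold sevens
    rw [card_eq_zero, filter_eq_empty_iff]
    intro S hS
    exact hX S (mem_powersetCard.mp hS).2

theorem choose3 {n : ℕ} (hn : 3 ≤ n) : ((n.choose 3 : ℕ) : ℝ) = (n : ℝ) * (n - 1) * (n - 2) / 6 := by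
  have h1 : n.choose 3 * 6 = n * (n - 1) * (n - 2) := by
    have := Nat.descFactorial_eq_factorial_mul_choose n 3
    have h2 : n.descFactorial 3 = (n - 2) * ((n - 1) * n) := by
      simp [Nat.descFactorial]
    rw [h2] at this
    have h3 : Nat.factorial 3 = 6 := rfl
    rw [h3] at this
    linarith
  have h4 : ((n.choose 3 * 6 : ℕ) : ℝ) = ((n * (n - 1) * (n - 2) : ℕ) : ℝ) := by rw [h1]
  push_cast [Nat.cast_sub (show 1 ≤ n by omega), Nat.cast_sub (show 2 ≤ n by omega)] at h4
  linarith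

theorem density (ε : ℝ) (hε : 0 < ε) : ∃ δ : ℝ, 0 < δ ∧ ∃ N : ℕ, ∀ n : ℕ, N ≤ n →
    ∀ H : Finset (Finset (Fin n)), (∀ e ∈ H, e.card = 3) → K43Free H →
      (copies exA H + copies exB H : ℝ) ≤ δ * (n : ℝ) ^ 7 →
        (H.card : ℝ) ≤ (5 / 9 + ε) * ((n.choose 3 : ℕ) : ℝ) := by
  refine ⟨ε / 10000, by positivity, ?_⟩
  obtain ⟨N, hN⟩ := exists_nat_gt (100 / ε + 10)
  refine ⟨max N 3, fun n hn H h3 hK hc => ?_⟩
  have hn3 : 3 ≤ n := (le_max_right _ _).trans hn
  have hnN : 100 / ε + 10 < (n : ℝ) := hN.trans_le (by exact_mod_cast (le_max_left _ _).trans hn)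
  have hεn : 100 + 10 * ε < ε * (n : ℝ) := by
    have := mul_lt_mul_of_pos_left hnN hε
    rw [mul_add, mul_div_cancel₀ _ hε.ne'] at this
    linarith
  have h : (54 : ℝ) * (n : ℝ) ^ 4 * (H.card : ℝ) ≤ 5 * (n : ℝ) ^ 7 + 15120 * (copies exA H + copies exB H : ℝ) := by
    exact_mod_cast main n H h3 hK
  have hn0 : (0 : ℝ) < n := by exact_mod_cast (show 0 < n by omega)
  have h1 : (n : ℝ) ^ 4 * (54 * (H.card : ℝ)) ≤ (n : ℝ) ^ 4 * (5 * (n : ℝ) ^ 3 + 1.512 * ε * (n : ℝ) ^ 3) := by
    have : 15120 * (copies exA H + copies exB H : ℝ) ≤ 1.512 * ε * (n : ℝ) ^ 7 := by linarith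
    linarith
  have h2 := le_of_mul_le_mul_left h1 (by positivity)
  rw [choose3 hn3]
  have h4 : (5 : ℝ) * n ^ 3 + 1.512 * ε * n ^ 3 ≤ 54 * ((5 / 9 + ε) * ((n : ℝ) * (n - 1) * (n - 2) / 6)) := by
    have e1 : 54 * ((5 / 9 + ε) * ((n : ℝ) * (n - 1) * (n - 2) / 6)) =
      5 * n ^ 3 + 9 * ε * n ^ 3 - (15 + 27 * ε) * n ^ 2 + (10 + 18 * ε) * n := by ring
    rw [e1]
    have e2 : 0 ≤ (n : ℝ) ^ 2 * (7.488 * (ε * n) - 15 - 27 * ε) :=
      mul_nonneg (by positivity) (by linarith)
    have e3 : 0 ≤ (10 + 18 * ε) * (n : ℝ) := by positivity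
    linarith
  linarith

/-! ### Turán's construction -/

/-- the number of edges of Turán's construction inside seven vertices of given classes -/
def cnt (E : Fin 3 → Fin 3 → Fin 3 → Bool) (a b c d e f g : Fin 3) : ℕ :=
  (E a b c).toNat + (E a b d).toNat + (E a b e).toNat + (E a b f).toNat + (E a b g).toNat +
  (E a c d).toNat + (E a c e).toNat + (E a c f).toNat + (E a c g).toNat + (E a d e).toNat +
  (E a d f).toNat + (E a d g).toNat + (E a e f).toNat + (E a e g).toNat + (E a f g).toNat +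
  (E b c d).toNat + (E b c e).toNat + (E b c f).toNat + (E b c g).toNat + (E b d e).toNat +
  (E b d f).toNat + (E b d g).toNat + (E b e f).toNat + (E b e g).toNat + (E b f g).toNat +
  (E c d e).toNat + (E c d f).toNat + (E c d g).toNat + (E c e f).toNat + (E c e g).toNat +
  (E c f g).toNat + (E d e f).toNat + (E d e g).toNat + (E d f g).toNat + (E e f g).toNat

open Pool.Agent.W38.TC.Lower in
theorem cnt_ne : ∀ a b c d e f g : Fin 3, cnt E a b c d e f g ≠ 22 := by decide +kernel

/-- the triples of seven elements -/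
def trs : List (Fin 7 × Fin 7 × Fin 7) :=
  [(0,1,2), (0,1,3), (0,1,4), (0,1,5), (0,1,6), (0,2,3), (0,2,4), (0,2,5), (0,2,6), (0,3,4),
   (0,3,5), (0,3,6), (0,4,5), (0,4,6), (0,5,6), (1,2,3), (1,2,4), (1,2,5), (1,2,6), (1,3,4),
   (1,3,5), (1,3,6), (1,4,5), (1,4,6), (1,5,6), (2,3,4), (2,3,5), (2,3,6), (2,4,5), (2,4,6),
   (2,5,6), (3,4,5), (3,4,6), (3,5,6), (4,5,6)]

theorem pow_trs : (univ : Finset (Fin 7)).powersetCard 3 =
    (trs.map fun t => ({t.1, t.2.1, t.2.2} : Finset (Fin 7))).toFinset := by decide +kernel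

theorem trs_nodup : (trs.map fun t => ({t.1, t.2.1, t.2.2} : Finset (Fin 7))).Nodup := by decide +kernel

theorem trs_ne : ∀ t ∈ trs, t.1 ≠ t.2.1 ∧ t.1 ≠ t.2.2 ∧ t.2.1 ≠ t.2.2 := by decide +kernel

open Pool.Agent.W38.TC.Lower in
theorem turan_edges {n : ℕ} (S : Finset (Fin n)) (hS : S.card = 7) :
    edgesIn (Pool.Agent.W38.TC.Lower.H : Finset (Finset (Fin n))) S ≠ 22 := by
  set f : Fin 7 → Fin n := fun i => S.orderEmbOfFin hS i with hf
  have hfi : Function.Injective f := (S.orderEmbOfFin hS).injective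
  have hfS : univ.image f = S := by
    ext v
    rw [mem_image]
    constructor
    · rintro ⟨i, -, rfl⟩
      exact S.orderEmbOfFin_mem hS i
    · intro hv
      have h1 : v ∈ Set.range (S.orderEmbOfFin hS) := by
        rw [range_orderEmbOfFin]; exact hv
      obtain ⟨i, hi⟩ := h1
      exact ⟨i, mem_univ _, hi⟩
  set G : Finset (Finset (Fin 7)) := ((univ : Finset (Fin 7)).powersetCard 3).filter
    fun t => t.image f ∈ (Pool.Agent.W38.TC.Lower.H : Finset (Finset (Fin n))) with hG
  have h1 : Induces G (Pool.Agent.W38.TC.Lower.H : Finset (Finset (Fin n))) S := by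
    refine ⟨f, hfi, hfS, fun t ht => ?_⟩
    rw [hG, mem_filter, mem_powersetCard]
    constructor
    · intro h; exact ⟨⟨subset_univ _, ht⟩, h⟩
    · intro h; exact h.2
  have h2 := (edges_of_induces (fun e he => H_card he) (fun t ht => (mem_powersetCard.mp (mem_filter.mp ht).1).2) h1).2
  rw [h2]
  have h4 : ∀ t ∈ trs, (({t.1, t.2.1, t.2.2} : Finset (Fin 7)).image f ∈
      (Pool.Agent.W38.TC.Lower.H : Finset (Finset (Fin n))) ↔ E (p (f t.1)) (p (f t.2.1)) (p (f t.2.2)) = true) := by
    intro t ht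
    obtain ⟨a1, a2, a3⟩ := trs_ne t ht
    rw [image_insert, image_insert, image_singleton]
    exact mem_H (fun h => a1 (hfi h)) (fun h => a2 (hfi h)) (fun h => a3 (hfi h))
  have h3 : G.card = (trs.map fun t => (E (p (f t.1)) (p (f t.2.1)) (p (f t.2.2))).toNat).sum := by
    rw [hG, card_filter, pow_trs, List.sum_toFinset _ trs_nodup, List.map_map]
    congr 1
    refine List.map_congr_left fun t ht => ?_
    simp only [Function.comp]
    by_cases hh : ({t.1, t.2.1, t.2.2} : Finset (Fin 7)).image f ∈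
        (Pool.Agent.W38.TC.Lower.H : Finset (Finset (Fin n)))
    · rw [if_pos hh, (h4 t ht).1 hh]; rfl
    · rw [if_neg hh, Bool.eq_false_iff.2 (fun h => hh ((h4 t ht).2 h))]; rfl
  rw [h3]
  have h7 := cnt_ne (p (f 0)) (p (f 1)) (p (f 2)) (p (f 3)) (p (f 4)) (p (f 5)) (p (f 6))
  intro h8
  apply h7
  rw [← h8]
  unfold cnt trs
  simp only [List.map_cons, List.map_nil, List.sum_cons, List.sum_nil]
  ring

/-- Turán's construction: no seven vertices span exactly 22 edges. -/
theorem sharp (n : ℕ) : ∃ H : Finset (Finset (Fin n)), (∀ e ∈ H, e.card = 3) ∧ K43Free H ∧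
    (∀ S : Finset (Fin n), S.card = 7 → edgesIn H S ≠ 22) ∧
    (∀ S, ¬ Induces exA H S ∧ ¬ Induces exB H S) ∧ 5 * n ^ 3 ≤ 54 * H.card + 108 * n ^ 2 := by
  refine ⟨Pool.Agent.W38.TC.Lower.H, fun e he => Pool.Agent.W38.TC.Lower.H_card he,
    fun S hS => Pool.Agent.W38.TC.Lower.H_free S hS, fun S hS => turan_edges S hS, fun S => ⟨?_, ?_⟩, ?_⟩
  · intro h
    have h1 := edges_of_induces (fun e he => Pool.Agent.W38.TC.Lower.H_card he) A3.1 h
    exact turan_edges S h1.1 (h1.2.trans A3.2)
  · intro h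
    have h1 := edges_of_induces (fun e he => Pool.Agent.W38.TC.Lower.H_card he) B3.1 h
    exact turan_edges S h1.1 (h1.2.trans B3.2)
  · have h1 := Pool.Agent.W38.TC.Lower.H_large (n := n)
    have h5 : 5 * (n : ℝ) ^ 3 ≤
        54 * ((Pool.Agent.W38.TC.Lower.H : Finset (Finset (Fin n))).card : ℝ) + 108 * (n : ℝ) ^ 2 := by
      nlinarith
    exact_mod_cast h5

/-- **Turán's `(3,4)`-conjecture without two 3-graphs with seven vertices and 22 edges.** Let `H` be a
`K_4^3`-free 3-graph on `n` vertices. Then `54 n⁴ |H| ≤ 5 n⁷ + 15120 N`, where `N` is the number of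
vertex sets which induce a copy of `exA` or `exB`; the same with the number of sets of seven vertices
spanning exactly 22 edges. So `|H| ≤ (5/54) n³` if `H` has no induced copy of `exA` and `exB`, in
particular if no seven vertices span exactly 22 edges. For every `ε > 0` there is `δ > 0` such that
`|H| ≤ (5/9 + ε) C(n,3)` if `N ≤ δ n⁷` and `n` is large. For every `n` Turán's construction is such a
3-graph, no seven of its vertices span exactly 22 edges, and `5 n³ ≤ 54 |H| + 108 n²`. -/
theorem result :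
    (∀ (n : ℕ) (H : Finset (Finset (Fin n))), (∀ e ∈ H, e.card = 3) → K43Free H →
      54 * n ^ 4 * H.card ≤ 5 * n ^ 7 + 15120 * (copies exA H + copies exB H) ∧
      54 * n ^ 4 * H.card ≤ 5 * n ^ 7 + 15120 * sevens H) ∧
    (∀ (n : ℕ) (H : Finset (Finset (Fin n))), (∀ e ∈ H, e.card = 3) → K43Free H →
      (∀ S, ¬ Induces exA H S ∧ ¬ Induces exB H S) → 54 * H.card ≤ 5 * n ^ 3) ∧
    (∀ (n : ℕ) (H : Finset (Finset (Fin n))), (∀ e ∈ H, e.card = 3) → K43Free H →
      (∀ S : Finset (Fin n), S.card = 7 → edgesIn H S ≠ 22) → 54 * H.card ≤ 5 * n ^ 3) ∧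
    (∀ ε : ℝ, 0 < ε → ∃ δ : ℝ, 0 < δ ∧ ∃ N : ℕ, ∀ n : ℕ, N ≤ n →
      ∀ H : Finset (Finset (Fin n)), (∀ e ∈ H, e.card = 3) → K43Free H →
        (copies exA H + copies exB H : ℝ) ≤ δ * (n : ℝ) ^ 7 →
          (H.card : ℝ) ≤ (5 / 9 + ε) * ((n.choose 3 : ℕ) : ℝ)) ∧
    (∀ n : ℕ, ∃ H : Finset (Finset (Fin n)), (∀ e ∈ H, e.card = 3) ∧ K43Free H ∧
      (∀ S : Finset (Fin n), S.card = 7 → edgesIn H S ≠ 22) ∧
      (∀ S, ¬ Induces exA H S ∧ ¬ Induces exB H S) ∧ 5 * n ^ 3 ≤ 54 * H.card + 108 * n ^ 2) :=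
  ⟨fun n H h3 hK => ⟨main n H h3 hK, main22 n H h3 hK⟩, of_free, of_free22, density, sharp⟩

end Pool.Agent.Results.MP_f1799f_co.SevenVerticesTwentyTwoEdges
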