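import Pool.Agent.T2H11.KS.Turan

/-!
# The Turán density of `K_4^3` for 3-graphs of twin-width one and for uniform splits

Disjoint vertex sets `C`, `A`, `B` form a *uniform split* of the 3-graph `G` if, for the triples of
`C ∪ A ∪ B` that meet both `C` and `A ∪ B`, being an edge depends only on the numbers of vertices in
`C`, in `A` and in `B`. Nothing is assumed on the triples inside `C` and inside `A ∪ B`. A set is
*reducible* if it is built from sets of a base class by steps `C`, `A ∪ B` ↦ `C ∪ (A ∪ B)` for
uniform splits. All `K_4^3`-free 3-graphs below are arbitrary otherwise.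

(1) Closure: let `K ≥ 5/9`. If a `K_4^3`-free 3-graph has at most `(K/6) |W'|³` edges inside every
subset `W'` of every base set, then it has at most `(K/6) |W|³` edges inside every reducible set `W`.
In particular a smallest counterexample to Turán's bound `(5/54) n³` has no uniform split.

(2) A contraction sequence of a 3-graph is a sequence of partitions of the vertices, from the
partition into single vertices, where each step merges two parts. Two parts `A`, `B` form a red pair
if there are two triples, both meeting `A` and `B` and with the same numbers of vertices in every
part, of which exactly one is an edge. Twin-width at most `t` means that in some contraction sequence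
every part is in at most `t` red pairs of its partition. Every 3-graph of twin-width at most one is
reducible to single vertices. So a `K_4^3`-free 3-graph of twin-width at most one has at most
`(5/54) n³` edges.

(3) Turán's construction has twin-width at most one. So the maximum density of `K_4^3`-free 3-graphs
of twin-width at most one is exactly `5/9`.

Outline of (1): if the vertices of `C` are joined to all pairs of a kind, there are no edges inside
the corresponding parts of `A ∪ B`; the remaining types are bounded by Goodman's inequality for the
triangles of the link graphs and by a similar inequality for two independent sets. In the critical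
case the bound becomes `abc + (a²b + b²c + c²a)/2 ≤ (5/54) (a + b + c)³`.
-/

set_option autoImplicit false

open Finset

namespace Pool.Agent.Results.MP_f1799f_co.TwinWidthOne

open Pool.Agent.T2H11.KS
open Pool.Agent.T2H11.HT (TwwLe)

theorem result :
    (∀ (V : Type) [DecidableEq V] (G : Finset (Finset V)) (K : ℝ) (base : Finset V → Prop),
      ThreeGraph G → TetrahedronFree G → 5 / 9 ≤ K →
      (∀ W, base W → ∀ W' ⊆ W, (edgesIn G W' : ℝ) ≤ K / 6 * (W'.card : ℝ) ^ 3) →
      ∀ W, Reducible G base W → (edgesIn G W : ℝ) ≤ K / 6 * (W.card : ℝ) ^ 3) ∧
    (∀ (V : Type) [Fintype V] [DecidableEq V] (G : Finset (Finset V)),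
      (TwwLe 3 (fun e => e ∈ G) 1 → Reducible G (fun W => W.card ≤ 1) univ) ∧
      (ThreeGraph G → TetrahedronFree G → Reducible G (fun W => W.card ≤ 1) univ →
        (G.card : ℝ) ≤ 5 / 54 * (Fintype.card V : ℝ) ^ 3)) ∧
    (∀ k : ℕ, ∃ G : Finset (Finset (Fin (3 * k))), ThreeGraph G ∧ TetrahedronFree G ∧
      TwwLe 3 (fun e => e ∈ G) 1 ∧ 2 * G.card + 3 * k ^ 2 = 5 * k ^ 3) := by
  refine ⟨?_, ?_, exists_turan⟩
  · intro V _ G K base h3 h4 hK hb W hW
    rw [← bd_iff h3]
    exact closure h3 h4 hK (fun W hW W' hW' => (bd_iff h3).2 (hb W hW W' hW')) hW W subset_rfl
  · intro V _ _ G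
    exact ⟨reducible_of_tww, reducible_bound⟩

end Pool.Agent.Results.MP_f1799f_co.TwinWidthOne
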